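import Mathlib
import Pool.Agent.Lib.MP_90b327_co.RB.Final

/-!
# Dense families of subsets of `[N]^(d+1)`: boxes `γ × Γ` with polynomially related sizes

All dimensions, all densities: for every dense family `S` of subsets of `[N]^(d+1)` there are a box
`γ × Γ` (`γ ⊆ [N]`, `Γ ⊆ [N]^d`) with `|γ| = P(n)`, `|Γ| = Q(n)` for some `n ≥ 1` and a set `A` in `S`,
disjoint from `γ × Γ`, with `A ∪ (γ × Γ)` in `S`; `P`, `Q` are arbitrary integer polynomials without
constant term and with positive leading coefficients (for instance `P = x`, `Q = x^d`). If `S` is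
invariant under all permutations of the last `d` coordinates `[N]^d`, then every set `Δ ⊆ [N]^d` of size
`Q(n)` can be taken in place of `Γ` (for instance `Δ = γ^d`: Q1 for such families).
-/

set_option autoImplicit false

namespace Pool.Agent.Lib.MP_90b327_co.Kept.BalancedBoxes

open Pool.Agent.Lib.MP_90b327_co.RB Polynomial

theorem result (d : ℕ) (hd : 1 ≤ d) (P Q : ℤ[X]) (hP0 : P.eval 0 = 0)
    (hP : 0 < P.leadingCoeff) (hQ0 : Q.eval 0 = 0) (hQ : 0 < Q.leadingCoeff) (δ : ℝ)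
    (hδ : 0 < δ) :
    ∃ N₀ : ℕ, ∀ N, N₀ ≤ N → ∀ S : Finset (Finset (Fin (d + 1) → Fin N)),
      δ * 2 ^ (N ^ (d + 1)) < (S.card : ℝ) →
      ∃ (n : ℕ) (γ : Finset (Fin N)) (Γ : Finset (Fin d → Fin N)),
        1 ≤ n ∧ γ.Nonempty ∧ Γ.Nonempty ∧ (γ.card : ℤ) = P.eval (n : ℤ) ∧
        (Γ.card : ℤ) = Q.eval (n : ℤ) ∧
        ∀ Δ : Finset (Fin d → Fin N), (Δ = Γ ∨ Δ.card = Γ.card ∧
            ∀ e : Equiv.Perm (Fin d → Fin N), ∀ A ∈ S, mv e A ∈ S) →
          ∃ A ∈ S, Disjoint A (box γ Δ) ∧ A ∪ box γ Δ ∈ S :=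
  boxes_all d hd P Q hP0 hP hQ0 hQ δ hδ

end Pool.Agent.Lib.MP_90b327_co.Kept.BalancedBoxes
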